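import Pool.Agent.helper58.CRO.SpecG

/-!
# MP_5bf3c3_gt, row cro:GDB: Cauchy-Schwarz in a normal chart
-/

open scoped Manifold ContDiff Topology ENNReal
open MeasureTheory Set Bundle Filter

noncomputable section

namespace Pool.Agent.CRO

universe u

/-- Cauchy-Schwarz for a positive definite symmetric bilinear form. -/
theorem GDB_cs {V : Type*} [AddCommGroup V] [Module ℝ V] (B : V → V → ℝ)
    (h1 : ∀ v w, B v w = B w v) (h2 : ∀ v v' w, B (v + v') w = B v w + B v' w)
    (h3 : ∀ (c : ℝ) v w, B (c • v) w = c * B v w) (h4 : ∀ v, v ≠ 0 → 0 < B v v) (y w : V) :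
    B y w ^ 2 ≤ B y y * B w w := by
  have h0 : ∀ v, 0 ≤ B v v := by
    intro v
    by_cases hv : v = 0
    · have := h3 0 v v
      rw [zero_smul, zero_mul] at this
      rw [hv] at this ⊢
      exact this.symm.le
    · exact (h4 v hv).le
  by_cases hw : w = 0
  · have h5 : B y w = 0 := by
      rw [h1, hw]
      have := h3 0 (0 : V) y
      rw [zero_smul, zero_mul] at this
      exact this
    rw [h5]
    have := mul_nonneg (h0 y) (h0 w)
    nlinarith
  · have hpos := h4 w hw
    have h5 := h0 (B w w • y + (-(B y w)) • w)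
    have h6 : B (B w w • y + (-(B y w)) • w) (B w w • y + (-(B y w)) • w) =
        B w w * (B y y * B w w - B y w ^ 2) := by
      have e1 : ∀ z, B (B w w • y + (-(B y w)) • w) z = B w w * B y z - B y w * B w z := by
        intro z
        rw [h2, h3, h3]
        ring
      rw [e1, h1 y, e1, h1 w (B w w • y + (-(B y w)) • w), e1, h1 w y]
      ring
    rw [h6] at h5
    have h7 := nonneg_of_mul_nonneg_right h5 hpos
    linarith

theorem GDB (h1 : GAU_stmt.{u}) (h2 : CBL_stmt.{u}) : GDB_stmt.{u} := by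
  intro n M _ _ _ g χ x r hr hN y w hy
  obtain ⟨hat, htar, -⟩ := id hN
  have hyt : y ∈ χ.target := by
    rw [htar]
    exact mem_ball_zero_iff.2 hy
  obtain ⟨c1, c2, c3, c4⟩ := h2 n M g χ hat y hyt
  have hG := (h1 n M g χ x r hr hN).2 y
  have hcs := GDB_cs (coef g χ y) c1 c2 c3 c4 y w
  rw [hG w hy, hG y hy, real_inner_self_eq_norm_sq] at hcs
  have h5 := Real.abs_le_sqrt hcs
  rwa [Real.sqrt_mul (sq_nonneg _), Real.sqrt_sq (norm_nonneg y)] at h5

end Pool.Agent.CRO
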