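import Pool.Agent.helper58.CRO.SpecJ

/-!
# MP_5bf3c3_gt, row cro:JP2: a lower bound for `(1-L)^p`
-/

open scoped Manifold ContDiff Topology ENNReal
open MeasureTheory Set

noncomputable section

namespace Pool.Agent.CRO

theorem JP2 : JP2_stmt := by
  intro p L hp hp2 hL0 hL1
  have hder : ∀ x : ℝ, HasDerivAt (fun y : ℝ => (1 - y) ^ p - (1 - p * y + p * (p - 1) / 2 * y ^ 2))
      (p * (1 - (p - 1) * x - (1 - x) ^ (p - 1))) x := by
    intro x
    have h1 : HasDerivAt (fun y : ℝ => 1 - y) (-1) x := by
      have := (hasDerivAt_const x (1 : ℝ)).sub (hasDerivAt_id x)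
      rw [zero_sub] at this
      exact this
    have h2 := h1.rpow_const (p := p) (Or.inr hp.le)
    have h3 : HasDerivAt (fun y : ℝ => p * y) p x := by
      have := (hasDerivAt_id x).const_mul p
      rw [mul_one] at this
      exact this
    have h4 : HasDerivAt (fun y : ℝ => p * (p - 1) / 2 * y ^ 2)
        (p * (p - 1) / 2 * (2 * x)) x := by
      have := (hasDerivAt_pow 2 x).const_mul (p * (p - 1) / 2)
      norm_num at this
      exact this
    have h5 : HasDerivAt (fun y : ℝ => 1 - p * y + p * (p - 1) / 2 * y ^ 2)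
        ((0 - p) + p * (p - 1) / 2 * (2 * x)) x := ((hasDerivAt_const x (1 : ℝ)).sub h3).add h4
    have h6 := h2.sub h5
    have h7 : -1 * p * (1 - x) ^ (p - 1) - ((0 - p) + p * (p - 1) / 2 * (2 * x)) =
        p * (1 - (p - 1) * x - (1 - x) ^ (p - 1)) := by ring
    rw [h7] at h6
    exact h6
  have hmono : MonotoneOn (fun y : ℝ => (1 - y) ^ p - (1 - p * y + p * (p - 1) / 2 * y ^ 2))
      (Icc 0 1) := by
    refine monotoneOn_of_deriv_nonneg (convex_Icc 0 1) ?_ ?_ ?_
    · exact fun x _ => (hder x).continuousAt.continuousWithinAt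
    · exact fun x _ => (hder x).differentiableAt.differentiableWithinAt
    · intro x hx
      rw [interior_Icc] at hx
      rw [(hder x).deriv]
      refine mul_nonneg (by linarith) ?_
      have h1 := rpow_one_add_le_one_add_mul_self (s := -x) (p := p - 1) (by linarith [hx.2])
        (by linarith) (by linarith)
      have h2 : (1 : ℝ) + -x = 1 - x := by ring
      rw [h2] at h1
      linarith
  have h0 := hmono (left_mem_Icc.2 zero_le_one) ⟨hL0, hL1⟩ hL0
  simp only [sub_zero, mul_zero, Real.one_rpow] at h0
  norm_num at h0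
  linarith

end Pool.Agent.CRO
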