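import Pool.Agent.helper58.CRO.SpecJ
import Pool.Agent.helper79.CRO.VVP
import Pool.Agent.helper41.CRO.VVC

/-!
# MP_5bf3c3_gt, row cro:JVL: the volumes of the shells
-/

open scoped Manifold ContDiff Topology ENNReal
open MeasureTheory Set

noncomputable section

namespace Pool.Agent.CRO

theorem JVL_pow (R a b : ℝ) (hb : 0 ≤ b) (hba : b ≤ a) (haR : a ≤ R) (k : ℕ) :
    a ^ (k + 1) - b ^ (k + 1) ≤ (k + 1) * R ^ k * (a - b) := by
  have ha : 0 ≤ a := hb.trans hba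
  have hR : 0 ≤ R := ha.trans haR
  induction k with
  | zero => simp
  | succ k ih =>
    have h1 : a ^ (k + 1 + 1) - b ^ (k + 1 + 1) =
        a ^ (k + 1) * (a - b) + b * (a ^ (k + 1) - b ^ (k + 1)) := by ring
    have h2 : a ^ (k + 1) * (a - b) ≤ R ^ (k + 1) * (a - b) :=
      mul_le_mul_of_nonneg_right (pow_le_pow_left₀ ha haR _) (by linarith)
    have h3 : b * (a ^ (k + 1) - b ^ (k + 1)) ≤ R * ((k + 1) * R ^ k * (a - b)) := by
      refine mul_le_mul (hba.trans haR) ih ?_ hR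
      have := pow_le_pow_left₀ hb hba (k + 1)
      linarith
    rw [h1]
    push_cast
    have h4 : R * ((k + 1) * R ^ k * (a - b)) = (k + 1) * R ^ (k + 1) * (a - b) := by ring
    rw [h4] at h3
    nlinarith

theorem JVL_lower {n : ℕ} {r0 : ℝ} (𝒢 : NChart n r0) (hn : 1 ≤ n) (r1 c : ℝ) (hr1 : r1 < r0)
    (hc : ∀ x ∈ Metric.ball (0 : En n) r1, c ≤ H79L_f 𝒢 x) (ρ ρ' : ℝ) (h0 : 0 ≤ ρ) (h1 : ρ ≤ ρ')
    (h2 : ρ' < r1) : ρ' ^ n * kap n * c - ρ ^ n * kap n * c ≤ VV 𝒢 ρ' - VV 𝒢 ρ := by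
  have hi : ∀ s, s ≤ r1 → IntegrableOn (H79L_f 𝒢) (Metric.ball 0 s) := fun s hs =>
    H79L_f_int 𝒢 s (by linarith)
  have hcc : ∀ s, IntegrableOn (fun _ : En n => c) (Metric.ball 0 s) := fun s =>
    integrableOn_const measure_ball_lt_top.ne
  have h3 : ∫ x in Metric.ball (0 : En n) ρ, (H79L_f 𝒢 x - c) ≤
      ∫ x in Metric.ball (0 : En n) ρ', (H79L_f 𝒢 x - c) := by
    refine setIntegral_mono_set ((hi ρ' h2.le).sub (hcc ρ')) ?_
      (Filter.Eventually.of_forall (Metric.ball_subset_ball h1))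
    filter_upwards [ae_restrict_mem measurableSet_ball] with x hx
    show 0 ≤ H79L_f 𝒢 x - c
    have := hc x (Metric.ball_subset_ball h2.le hx)
    linarith
  have e1 : ∀ s, 0 ≤ s → s ≤ r1 → ∫ x in Metric.ball (0 : En n) s, (H79L_f 𝒢 x - c) =
      VV 𝒢 s - s ^ n * kap n * c := by
    intro s hs hs'
    rw [integral_sub (hi s hs') (hcc s), VVC_const hn s c hs]
    rfl
  rw [e1 ρ h0 (by linarith), e1 ρ' (by linarith) h2.le] at h3
  linarith

theorem JVL_tele {n : ℕ} {r0 : ℝ} (𝒢 : NChart n r0) (h : ℝ) (M : ℕ) :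
    ∑ j ∈ Finset.Icc 1 M, (VV 𝒢 (j * h) - VV 𝒢 (((j : ℝ) - 1) * h)) = VV 𝒢 (M * h) - VV 𝒢 0 := by
  induction M with
  | zero => simp
  | succ M ih =>
    rw [Finset.sum_Icc_succ_top (by omega), ih]
    push_cast
    rw [add_sub_cancel_right]
    ring

theorem JVL : JVL_stmt := by
  intro n r0 𝒢 R hn hR hRr
  have hn1 : 1 ≤ n := by omega
  refine ⟨?_, ?_⟩
  · obtain ⟨r1, hr1⟩ : ∃ r1, r1 = (R + r0) / 2 := ⟨_, rfl⟩
    have hRr1 : R < r1 := by rw [hr1]; linarith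
    have hr10 : r1 < r0 := by rw [hr1]; linarith
    have hr1p : 0 < r1 := hR.trans hRr1
    obtain ⟨C0, hC0⟩ := (isCompact_closedBall (0 : En n) r1).exists_bound_of_continuousOn
      ((H79L_f_cont 𝒢).mono (Metric.closedBall_subset_ball hr10))
    obtain ⟨y, hy, hmin⟩ := (isCompact_closedBall (0 : En n) r1).exists_isMinOn
      ⟨0, Metric.mem_closedBall_self hr1p.le⟩
      ((H79L_f_cont 𝒢).mono (Metric.closedBall_subset_ball hr10))
    have hy' : ‖y‖ < r0 := lt_of_le_of_lt (mem_closedBall_zero_iff.1 hy) hr10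
    have hcpos : 0 < H79L_f 𝒢 y := H79L_f_pos 𝒢 y hy'
    have hkap : 0 < kap n := VVP_kap_pos
    obtain ⟨C, hC⟩ : ∃ C, C = max C0 1 := ⟨_, rfl⟩
    have hCpos : 0 < C := by rw [hC]; exact lt_of_lt_of_le one_pos (le_max_right _ _)
    have hCb : ∀ x ∈ Metric.ball (0 : En n) r1, H79L_f 𝒢 x ≤ C := fun x hx => by
      rw [hC]
      exact ((le_abs_self _).trans (hC0 x (Metric.ball_subset_closedBall hx))).trans
        (le_max_left _ _)
    have hcb : ∀ x ∈ Metric.ball (0 : En n) r1, H79L_f 𝒢 y ≤ H79L_f 𝒢 x := fun x hx =>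
      hmin (Metric.ball_subset_closedBall hx)
    obtain ⟨k, rfl⟩ : ∃ k, n = k + 1 := ⟨n - 1, by omega⟩
    refine ⟨kap (k + 1) * H79L_f 𝒢 y, kap (k + 1) * C * ((k + 1) * R ^ k), by positivity,
      by positivity, ?_⟩
    intro N j hN hj
    obtain ⟨hj1, hjN⟩ := Finset.mem_Icc.1 hj
    have hN' : (0 : ℝ) < N := by exact_mod_cast hN
    have hj1' : (1 : ℝ) ≤ j := by exact_mod_cast hj1
    have hjN' : (j : ℝ) ≤ N := by exact_mod_cast hjN
    obtain ⟨h, hh⟩ : ∃ h, h = R / N := ⟨_, rfl⟩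
    have hhp : 0 < h := by rw [hh]; positivity
    have hNh : (N : ℝ) * h = R := by rw [hh]; field_simp
    have ha : (j : ℝ) * h ≤ R := by
      rw [← hNh]
      exact mul_le_mul_of_nonneg_right hjN' hhp.le
    have hb0 : 0 ≤ ((j : ℝ) - 1) * h := mul_nonneg (by linarith) hhp.le
    have hba : ((j : ℝ) - 1) * h ≤ j * h := mul_le_mul_of_nonneg_right (by linarith) hhp.le
    have hd : (j : ℝ) * h - ((j : ℝ) - 1) * h = h := by ring
    have hup := (VVC_diff 𝒢 hn1 r1 C hr10 hCb _ _ hb0 hba (lt_of_le_of_lt ha hRr1)).2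
    have hlo := JVL_lower 𝒢 hn1 r1 (H79L_f 𝒢 y) hr10 hcb _ _ hb0 hba (lt_of_le_of_lt ha hRr1)
    have hp := JVL_pow R _ _ hb0 hba ha k
    rw [hd] at hp
    rw [← hh]
    unfold vv
    rw [← hh]
    constructor
    · refine le_trans ?_ hlo
      have h5 : (((j : ℝ) - 1) * h) ^ k ≤ ((j : ℝ) * h) ^ k := pow_le_pow_left₀ hb0 hba k
      have h6 : ((j : ℝ) * h) ^ (k + 1 - 1) * h ≤
          ((j : ℝ) * h) ^ (k + 1) - (((j : ℝ) - 1) * h) ^ (k + 1) := by
        rw [Nat.add_sub_cancel, pow_succ, pow_succ]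
        have h7 := mul_le_mul_of_nonneg_right h5 hb0
        nlinarith
      have h8 := mul_le_mul_of_nonneg_left h6 (mul_pos hkap hcpos).le
      nlinarith
    · refine le_trans hup ?_
      have h8 := mul_le_mul_of_nonneg_left hp (mul_pos hkap hCpos).le
      nlinarith
  · intro N hN
    have hN' : (0 : ℝ) < N := by exact_mod_cast hN
    unfold vv
    rw [JVL_tele, mul_div_cancel₀ _ hN'.ne']
    have h0 : VV 𝒢 0 = 0 := by
      unfold VV
      rw [Metric.ball_zero, setIntegral_empty]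
    rw [h0, sub_zero]

end Pool.Agent.CRO
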